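import Pool.Agent.Z700.Defs

/-!
# The tree identity of the project Z700

Proof of `Pool.Agent.Z700.S_TREE`: for a symmetric weight `l` the sum over all splittings of `P` with
`p0` on the first side of the products of the determinants `Yd` is odd exactly when the sum of the
diagonal part is odd and the Laplacian has kernel `{∅, P}` modulo two.
-/

set_option autoImplicit false

namespace Pool.Agent.Z179

open Finset Matrix Pool.Agent.Z700

theorem yd_congr (l : ℕ → ℕ → ℤ) {x y : ℕ → ℤ} {S : Finset ℕ} (h : ∀ i ∈ S, x i = y i) :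
    Yd l x S = Yd l y S := by
  unfold Yd
  congr 1
  ext i j
  simp only [Matrix.of_apply]
  split_ifs with hij
  · rw [h i.1 i.2]
  · rfl

theorem yd_empty (l : ℕ → ℕ → ℤ) (x : ℕ → ℤ) : Yd l x ∅ = 1 := by
  unfold Yd
  exact Matrix.det_isEmpty

/-- the rows of the Laplacian -/
theorem row_apply {R : Type*} [CommRing R] (l : ℕ → ℕ → R) (x : ℕ → R) (S : Finset ℕ) (v : ℕ → R)
    (i : S) :
    ((Matrix.of fun i j : S => if i = j then (∑ k ∈ S.erase i.1, l i k) + x i else -l i j) *ᵥ
      (fun j : S => v j)) i =
      ((∑ k ∈ S.erase i.1, l i k) + x i) * v i - ∑ k ∈ S.erase i.1, l i k * v k := by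
  classical
  simp only [Matrix.mulVec, dotProduct, Matrix.of_apply]
  have h1 : (∑ j : S, (if i = j then (∑ k ∈ S.erase i.1, l i k) + x i else -l i j) * v j) =
      ∑ j ∈ S, (if i.1 = j then (∑ k ∈ S.erase i.1, l i k) + x i else -l i j) * v j := by
    rw [← Finset.sum_coe_sort S]
    refine Finset.sum_congr rfl fun j _ => ?_
    by_cases hij : i = j
    · subst hij
      simp
    · have : i.1 ≠ j.1 := fun h => hij (Subtype.ext h)
      simp [hij, this]
  rw [h1, ← Finset.add_sum_erase S _ i.2]
  simp only [if_true]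
  rw [sub_eq_add_neg, ← Finset.sum_neg_distrib]
  congr 1
  refine Finset.sum_congr rfl fun j hj => ?_
  have : i.1 ≠ j := fun h => (Finset.mem_erase.1 hj).1 h.symm
  simp [this]

theorem yd_zero (l : ℕ → ℕ → ℤ) {S : Finset ℕ} (hS : S.Nonempty) : Yd l (fun _ => 0) S = 0 := by
  unfold Yd
  rw [← Matrix.exists_mulVec_eq_zero_iff]
  refine ⟨fun _ => 1, ?_, ?_⟩
  · obtain ⟨s, hs⟩ := hS
    intro h
    have := congrFun h ⟨s, hs⟩
    simp at this
  · ext i
    have := row_apply l (fun _ => 0) S (fun _ => 1) i
    refine this.trans ?_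
    simp

/-- the determinant is affine in each diagonal entry -/
theorem yd_step (l : ℕ → ℕ → ℤ) (x y : ℕ → ℤ) (S : Finset ℕ) (i : ℕ) (hi : i ∈ S)
    (hxy : ∀ j ∈ S, j ≠ i → y j = x j) :
    Yd l y S = Yd l x S + (y i - x i) * Yd l (fun k => x k + l k i) (S.erase i) := by
  classical
  set M : Matrix S S ℤ :=
    Matrix.of fun i j : S => if i = j then (∑ k ∈ S.erase i.1, l i k) + x i else -l i j with hM
  set i' : S := ⟨i, hi⟩ with hi'
  have h1 : (Matrix.of fun i j : S => if i = j then (∑ k ∈ S.erase i.1, l i k) + y i else -l i j) =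
      M.updateRow i' (M i' + (y i - x i) • Pi.single i' 1) := by
    ext a b
    rw [Matrix.updateRow_apply]
    by_cases ha : a = i'
    · subst ha
      simp only [if_true, Pi.add_apply, Pi.smul_apply, hM, Matrix.of_apply]
      by_cases hb : i' = b
      · subst hb
        simp [hi']
      · have : b ≠ i' := fun h => hb h.symm
        simp [hb, this]
    · have ha' : a.1 ≠ i := fun h => ha (Subtype.ext h)
      simp [ha, hM, hxy a.1 a.2 ha']
  have h2 : (M.updateRow i' (M i')).det = M.det := by
    rw [Matrix.updateRow_eq_self]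
  have h3 : (M.updateRow i' (Pi.single i' 1)).det = Yd l (fun k => x k + l k i) (S.erase i) := by
    rw [Matrix.twoBlockTriangular_det _ (fun j => j ≠ i')]
    · have k1 : (Matrix.toSquareBlockProp (M.updateRow i' (Pi.single i' 1))
          (fun j => ¬ j ≠ i')).det = 1 := by
        have : Unique {a : S // ¬ a ≠ i'} :=
          ⟨⟨⟨i', by simp⟩⟩, fun a => Subtype.ext (not_not.1 a.2)⟩
        rw [Matrix.det_unique]
        have k2 : (default : {a : S // ¬ a ≠ i'}).1 = i' := not_not.1 (default : {a : S // ¬ a ≠ i'}).2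
        have k3 : ∀ a : S, a = i' → M.updateRow i' (Pi.single i' 1) a a = 1 := by
          intro a ha
          subst ha
          rw [Matrix.updateRow_self, Pi.single_eq_same]
        exact k3 _ k2
      rw [k1, mul_one]
      unfold Yd
      let e : {a : S // a ≠ i'} ≃ (S.erase i) :=
        { toFun := fun a => ⟨a.1.1, Finset.mem_erase.2 ⟨fun h => a.2 (Subtype.ext h), a.1.2⟩⟩
          invFun := fun a => ⟨⟨a.1, Finset.mem_of_mem_erase a.2⟩,
            fun h => (Finset.mem_erase.1 a.2).1 (congrArg Subtype.val h)⟩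
          left_inv := fun a => rfl
          right_inv := fun a => rfl }
      rw [← Matrix.det_submatrix_equiv_self e]
      congr 1
      ext a b
      simp only [Matrix.toSquareBlockProp, Matrix.toBlock_apply, Matrix.of_apply,
        Matrix.submatrix_apply]
      rw [Matrix.updateRow_ne a.2, hM, Matrix.of_apply]
      by_cases hab : a = b
      · subst hab
        simp only [if_true]
        have k3 : (e a).1 = a.1.1 := rfl
        have k4 : i ∈ S.erase a.1.1 := Finset.mem_erase.2 ⟨fun h => a.2 (Subtype.ext h.symm), hi⟩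
        rw [k3, ← Finset.add_sum_erase _ _ k4, Finset.erase_right_comm]
        ring
      · have k5 : a.1 ≠ b.1 := fun h => hab (Subtype.ext h)
        have k6 : e a ≠ e b := fun h => hab (e.injective h)
        rw [if_neg k5, if_neg k6]
        rfl
    · intro a ha b hb
      have : a = i' := not_not.1 ha
      subst this
      rw [Matrix.updateRow_self, Pi.single_eq_of_ne hb]
  rw [show Yd l y S = (Matrix.of fun i j : S =>
    if i = j then (∑ k ∈ S.erase i.1, l i k) + y i else -l i j).det from rfl, h1,
    Matrix.det_updateRow_add, Matrix.det_updateRow_smul, h2, h3]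
  rfl

/-- the addition formula -/
theorem yd_add (l : ℕ → ℕ → ℤ) : ∀ (n : ℕ) (P : Finset ℕ), P.card = n → ∀ x y : ℕ → ℤ,
    Yd l (fun k => x k + y k) P = ∑ S ∈ P.powerset, Yd l x S * Yd l y (P \ S) := by
  classical
  intro n
  induction n using Nat.strong_induction_on with
  | _ n ih =>
    intro P hP x y
    have key : ∀ T ⊆ P, Yd l (fun k => (if k ∈ T then x k else 0) + y k) P =
        ∑ S ∈ P.powerset, Yd l (fun k => if k ∈ T then x k else 0) S * Yd l y (P \ S) := by
      intro T
      induction T using Finset.induction_on with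
      | empty =>
        intro _
        rw [Finset.sum_eq_single ∅]
        · simp [yd_empty]
        · intro S _ hS
          have := yd_zero l (Finset.nonempty_iff_ne_empty.2 hS)
          simp [this]
        · intro h
          exact absurd (Finset.empty_mem_powerset P) h
      | insert i T hiT ihT =>
        intro hT
        have hi : i ∈ P := hT (Finset.mem_insert_self i T)
        have h0 := ihT ((Finset.subset_insert i T).trans hT)
        have a1 := yd_step l (fun k => (if k ∈ T then x k else 0) + y k)
          (fun k => (if k ∈ insert i T then x k else 0) + y k) P i hi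
          (by
            intro j _ hji
            simp [Finset.mem_insert, hji])
        have a2 := ih (P.erase i).card (by
          rw [← hP]
          exact Finset.card_lt_card (Finset.erase_ssubset hi)) (P.erase i) rfl
          (fun k => (if k ∈ T then x k else 0) + l k i) y
        have a3 : (fun k => ((if k ∈ T then x k else 0) + y k) + l k i) =
            (fun k => ((if k ∈ T then x k else 0) + l k i) + y k) := by
          funext k
          ring
        rw [a1, a3, a2, h0]
        obtain ⟨Q, hQ⟩ : ∃ Q, Q = P.erase i := ⟨_, rfl⟩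
        have hiQ : i ∉ Q := by
          rw [hQ]
          exact Finset.notMem_erase i P
        have hPQ : P = insert i Q := by
          rw [hQ, Finset.insert_erase hi]
        rw [← hQ, hPQ, Finset.sum_powerset_insert hiQ, Finset.sum_powerset_insert hiQ]
        have a4 : ∀ S ∈ Q.powerset, Yd l (fun k => if k ∈ insert i T then x k else 0) S =
            Yd l (fun k => if k ∈ T then x k else 0) S := by
          intro S hS
          refine yd_congr l fun j hj => ?_
          have : j ≠ i := fun h => hiQ (h ▸ Finset.mem_powerset.1 hS hj)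
          simp [Finset.mem_insert, this]
        have a5 : ∀ S ∈ Q.powerset, Yd l (fun k => if k ∈ insert i T then x k else 0) (insert i S) =
            Yd l (fun k => if k ∈ T then x k else 0) (insert i S) +
              x i * Yd l (fun k => (if k ∈ T then x k else 0) + l k i) S := by
          intro S hS
          have hiS : i ∉ S := fun h => hiQ (Finset.mem_powerset.1 hS h)
          have := yd_step l (fun k => if k ∈ T then x k else 0)
            (fun k => if k ∈ insert i T then x k else 0) (insert i S) i
            (Finset.mem_insert_self i S)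
            (by
              intro j _ hji
              simp [Finset.mem_insert, hji])
          rw [this, Finset.erase_insert hiS]
          simp [hiT]
        have a6 : ∀ S ∈ Q.powerset, insert i Q \ insert i S = Q \ S := by
          intro S hS
          rw [Finset.insert_sdiff_insert, Finset.sdiff_insert_of_notMem hiQ]
        have b1 : ∑ S ∈ Q.powerset, Yd l (fun k => if k ∈ insert i T then x k else 0) S *
            Yd l y (insert i Q \ S) = ∑ S ∈ Q.powerset,
              Yd l (fun k => if k ∈ T then x k else 0) S * Yd l y (insert i Q \ S) :=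
          Finset.sum_congr rfl fun S hS => by rw [a4 S hS]
        have b2 : ∑ S ∈ Q.powerset, Yd l (fun k => if k ∈ insert i T then x k else 0)
            (insert i S) * Yd l y (insert i Q \ insert i S) =
            ∑ S ∈ Q.powerset, (Yd l (fun k => if k ∈ T then x k else 0) (insert i S) *
                Yd l y (insert i Q \ insert i S) +
              x i * (Yd l (fun k => (if k ∈ T then x k else 0) + l k i) S *
                Yd l y (Q \ S))) :=
          Finset.sum_congr rfl fun S hS => by
            rw [a5 S hS, a6 S hS]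
            ring
        rw [b1, b2, Finset.sum_add_distrib, ← Finset.mul_sum]
        simp only [Finset.mem_insert_self, if_true, hiT, if_false]
        ring
    have k := key P (subset_refl P)
    have e1 : Yd l (fun k => x k + y k) P = Yd l (fun k => (if k ∈ P then x k else 0) + y k) P :=
      yd_congr l fun j hj => by simp [hj]
    rw [e1, k]
    refine Finset.sum_congr rfl fun S hS => ?_
    rw [yd_congr l (x := fun k => if k ∈ P then x k else 0) (y := x) fun j hj => by
      simp [Finset.mem_powerset.1 hS hj]]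

/-- doubling -/
theorem yd_double (l : ℕ → ℕ → ℤ) (x : ℕ → ℤ) (P : Finset ℕ) (p0 : ℕ) (hp : p0 ∈ P) :
    Yd l (fun k => 2 * x k) P =
      2 * ∑ S ∈ P.powerset.filter fun S => p0 ∈ S, Yd l x S * Yd l x (P \ S) := by
  classical
  have h1 := yd_add l P.card P rfl x x
  have h2 : (fun k => x k + x k) = fun k => 2 * x k := by
    funext k
    ring
  rw [h2] at h1
  rw [h1, ← Finset.sum_filter_add_sum_filter_not P.powerset (fun S => p0 ∈ S)]
  have h3 : ∑ S ∈ P.powerset.filter (fun S => ¬ p0 ∈ S), Yd l x S * Yd l x (P \ S) =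
      ∑ S ∈ P.powerset.filter (fun S => p0 ∈ S), Yd l x S * Yd l x (P \ S) := by
    refine Finset.sum_nbij' (fun S => P \ S) (fun S => P \ S) ?_ ?_ ?_ ?_ ?_
    · intro S hS
      simp only [Finset.mem_filter, Finset.mem_powerset] at hS ⊢
      exact ⟨Finset.sdiff_subset, Finset.mem_sdiff.2 ⟨hp, hS.2⟩⟩
    · intro S hS
      simp only [Finset.mem_filter, Finset.mem_powerset] at hS ⊢
      exact ⟨Finset.sdiff_subset, fun h => (Finset.mem_sdiff.1 h).2 hS.2⟩
    · intro S hS
      exact Finset.sdiff_sdiff_eq_self (Finset.mem_powerset.1 (Finset.mem_filter.1 hS).1)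
    · intro S hS
      exact Finset.sdiff_sdiff_eq_self (Finset.mem_powerset.1 (Finset.mem_filter.1 hS).1)
    · intro S hS
      rw [Finset.sdiff_sdiff_eq_self (Finset.mem_powerset.1 (Finset.mem_filter.1 hS).1)]
      ring
  rw [h3]
  ring

theorem par_iff (a : ℤ) : (2 : ℤ) ∣ a ↔ (a : ZMod 2) = 0 :=
  ((ZMod.intCast_zmod_eq_zero_iff_dvd a 2).symm : _)

/-- reduction modulo two -/
theorem yd_par (l : ℕ → ℕ → ℤ) (x y : ℕ → ℤ) (S : Finset ℕ) (h : ∀ k ∈ S, (2 : ℤ) ∣ x k - y k) :
    (2 : ℤ) ∣ Yd l x S - Yd l y S := by
  rw [par_iff, Int.cast_sub, sub_eq_zero]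
  unfold Yd
  rw [Int.cast_det, Int.cast_det]
  congr 1
  ext i j
  simp only [Matrix.map_apply, Matrix.of_apply]
  split_ifs with hij
  · have := h i.1 i.2
    rw [par_iff, Int.cast_sub, sub_eq_zero] at this
    push_cast
    rw [this]
  · rfl

theorem yd_mod4 (l : ℕ → ℕ → ℤ) (x : ℕ → ℤ) (P : Finset ℕ) (hP : P.Nonempty) : ∀ T ⊆ P,
    (4 : ℤ) ∣ Yd l (fun k => if k ∈ T then 2 * x k else 0) P -
      2 * ∑ i ∈ T, x i * Yd l (fun k => l k i) (P.erase i) := by
  classical
  intro T
  induction T using Finset.induction_on with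
  | empty =>
    intro _
    have := yd_zero l hP
    simp [this]
  | insert i T hiT ihT =>
    intro hT
    have hi : i ∈ P := hT (Finset.mem_insert_self i T)
    have h0 := ihT ((Finset.subset_insert i T).trans hT)
    have a1 := yd_step l (fun k => if k ∈ T then 2 * x k else 0)
      (fun k => if k ∈ insert i T then 2 * x k else 0) P i hi
      (by
        intro j _ hji
        simp [Finset.mem_insert, hji])
    have a2 := yd_par l (fun k => (if k ∈ T then 2 * x k else 0) + l k i) (fun k => l k i)
      (P.erase i) (by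
        intro k _
        by_cases hk : k ∈ T
        · simp [hk]
        · simp [hk])
    rw [a1, Finset.sum_insert hiT]
    simp only [Finset.mem_insert_self, if_true, hiT, if_false, sub_zero]
    obtain ⟨u, hu⟩ := h0
    obtain ⟨v, hv⟩ := a2
    refine ⟨u + x i * v, ?_⟩
    linear_combination hu + 2 * x i * hv

theorem ev_iff (a : ℤ) : Even a ↔ (a : ZMod 2) = 0 := by
  rw [even_iff_two_dvd, par_iff]

theorem od_iff (a : ℤ) : Odd a ↔ (a : ZMod 2) ≠ 0 := by
  rw [← Int.not_even_iff_odd, ev_iff]

/-- the Laplacian has kernel `{∅, P}` modulo two -/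
def KerL (l : ℕ → ℕ → ℤ) (P : Finset ℕ) : Prop := ∀ J ⊆ P,
  (∀ p ∈ P \ J, Even (∑ q ∈ J, l p q)) → (∀ p ∈ J, Even (∑ q ∈ P \ J, l p q)) → J = ∅ ∨ J = P

/-- the row of the reduced Laplacian modulo two -/
theorem red_row (l : ℕ → ℕ → ℤ) (P : Finset ℕ) (i : ℕ) (hi : i ∈ P) (v : ℕ → ZMod 2)
    (hv : v i = 0) (j : P.erase i) :
    ((Matrix.of fun a b : (P.erase i) => if a = b then
      (∑ k ∈ (P.erase i).erase a.1, l a k) + l a i else -l a b).map (Int.cast : ℤ → ZMod 2) *ᵥ
      (fun j : (P.erase i) => v j)) j = ∑ k ∈ P, (l j k : ZMod 2) * (v j - v k) := by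
  classical
  have h0 : (Matrix.of fun a b : (P.erase i) => if a = b then
      (∑ k ∈ (P.erase i).erase a.1, l a k) + l a i else -l a b).map (Int.cast : ℤ → ZMod 2) =
      (Matrix.of fun a b : (P.erase i) => if a = b then
      (∑ k ∈ (P.erase i).erase a.1, (l a k : ZMod 2)) + (l a i : ZMod 2)
        else -(l a b : ZMod 2)) := by
    ext a b
    simp only [Matrix.map_apply, Matrix.of_apply]
    split_ifs with hab
    · push_cast
      rfl
    · push_cast
      rfl
  rw [h0]
  refine (row_apply (fun a b => (l a b : ZMod 2)) (fun a => (l a i : ZMod 2)) (P.erase i) v j).trans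
    ?_
  have hj := Finset.mem_erase.1 j.2
  have h1 : (j : ℕ) ∈ P.erase i := j.2
  rw [← Finset.add_sum_erase P _ hi, ← Finset.add_sum_erase (P.erase i) _ h1, hv]
  simp only [mul_sub, Finset.sum_sub_distrib, ← Finset.sum_mul]
  ring

theorem ci_odd (l : ℕ → ℕ → ℤ) (hl : ∀ i j, l i j = l j i) (P : Finset ℕ) (i : ℕ) (hi : i ∈ P) :
    Odd (Yd l (fun k => l k i) (P.erase i)) ↔ KerL l P := by
  classical
  rw [od_iff]
  unfold Yd
  rw [Int.cast_det]
  constructor
  · intro hdet
    have key : ∀ J ⊆ P, i ∉ J → (∀ p ∈ P \ J, Even (∑ q ∈ J, l p q)) →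
        (∀ p ∈ J, Even (∑ q ∈ P \ J, l p q)) → J = ∅ := by
      intro J hJ hiJ h1 h2
      have k0 := Matrix.eq_zero_of_mulVec_eq_zero hdet
        (v := fun j : (P.erase i) => if (j : ℕ) ∈ J then (1 : ZMod 2) else 0)
      have k1 := k0 (by
        ext j
        refine (red_row l P i hi (fun j => if j ∈ J then (1 : ZMod 2) else 0) (by simp [hiJ])
          j).trans ?_
        rw [Pi.zero_apply]
        have hjP : (j : ℕ) ∈ P := Finset.mem_of_mem_erase j.2
        by_cases hj : (j : ℕ) ∈ J
        · have := h2 j hj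
          rw [ev_iff, Int.cast_sum] at this
          refine Eq.trans ?_ this
          rw [← Finset.sum_sdiff hJ]
          rw [Finset.sum_eq_zero (s := J)]
          · rw [add_zero]
            refine Finset.sum_congr rfl fun k hk => ?_
            simp [hj, (Finset.mem_sdiff.1 hk).2]
          · intro k hk
            simp [hj, hk]
        · have := h1 j (Finset.mem_sdiff.2 ⟨hjP, hj⟩)
          rw [ev_iff, Int.cast_sum] at this
          rw [← Finset.sum_sdiff hJ]
          rw [Finset.sum_eq_zero (s := P \ J)]
          · rw [zero_add, ← neg_eq_zero, ← Finset.sum_neg_distrib]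
            refine Eq.trans ?_ this
            refine Finset.sum_congr rfl fun k hk => ?_
            simp [hj, hk]
          · intro k hk
            simp [hj, (Finset.mem_sdiff.1 hk).2])
      rw [Finset.eq_empty_iff_forall_notMem]
      intro k hk
      have hki : k ≠ i := fun h => hiJ (h ▸ hk)
      have := congrFun k1 ⟨k, Finset.mem_erase.2 ⟨hki, hJ hk⟩⟩
      simp [hk] at this
    intro J hJ h1 h2
    by_cases hiJ : i ∈ J
    · right
      have := key (P \ J) Finset.sdiff_subset (fun h => (Finset.mem_sdiff.1 h).2 hiJ)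
        (by rw [Finset.sdiff_sdiff_eq_self hJ]; exact h2)
        (by rw [Finset.sdiff_sdiff_eq_self hJ]; exact h1)
      exact Finset.Subset.antisymm hJ (Finset.sdiff_eq_empty_iff_subset.1 this)
    · left
      exact key J hJ hiJ h1 h2
  · intro hK hdet
    obtain ⟨v, hv0, hv⟩ := Matrix.exists_mulVec_eq_zero_iff.2 hdet
    apply hv0
    set w : ℕ → ZMod 2 := fun k => if h : k ∈ P.erase i then v ⟨k, h⟩ else 0 with hw
    have hwv : (fun j : (P.erase i) => w j) = v := by
      funext j
      simp only [hw]
      rw [dif_pos j.2]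
    have hwi : w i = 0 := by
      simp only [hw]
      rw [dif_neg (Finset.notMem_erase i P)]
    have k1 : ∀ j ∈ P, j ≠ i → ∑ k ∈ P, (l j k : ZMod 2) * (w j - w k) = 0 := by
      intro j hj hji
      have a1 := red_row l P i hi w hwi ⟨j, Finset.mem_erase.2 ⟨hji, hj⟩⟩
      rw [hwv, hv] at a1
      exact a1.symm
    have k2 : ∑ j ∈ P, ∑ k ∈ P, (l j k : ZMod 2) * (w j - w k) = 0 := by
      simp only [mul_sub, Finset.sum_sub_distrib]
      rw [sub_eq_zero, Finset.sum_comm]
      refine Finset.sum_congr rfl fun j _ => Finset.sum_congr rfl fun k _ => ?_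
      rw [hl]
    have k3 : ∀ j ∈ P, ∑ k ∈ P, (l j k : ZMod 2) * (w j - w k) = 0 := by
      intro j hj
      by_cases hji : j = i
      · subst hji
        rw [← Finset.add_sum_erase P _ hj, Finset.sum_eq_zero (s := P.erase j), add_zero] at k2
        · exact k2
        · intro k hk
          exact k1 k (Finset.mem_of_mem_erase hk) (Finset.mem_erase.1 hk).1
      · exact k1 j hj hji
    have hz : ∀ a : ZMod 2, a = 0 ∨ a = 1 := by decide
    set J : Finset ℕ := P.filter fun k => w k = 1 with hJ
    have hJP : J ⊆ P := Finset.filter_subset _ _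
    have hJ1 : ∀ k ∈ J, w k = 1 := fun k hk => (Finset.mem_filter.1 hk).2
    have hJ0 : ∀ k ∈ P \ J, w k = 0 := by
      intro k hk
      rcases hz (w k) with h | h
      · exact h
      · exact absurd (Finset.mem_filter.2 ⟨(Finset.mem_sdiff.1 hk).1, h⟩) (Finset.mem_sdiff.1 hk).2
    have hc := hK J hJP
      (by
        intro p hp
        rw [ev_iff, Int.cast_sum]
        have a1 := k3 p (Finset.mem_sdiff.1 hp).1
        rw [← Finset.sum_sdiff hJP, Finset.sum_eq_zero (s := P \ J)] at a1
        · rw [zero_add, ← neg_eq_zero, ← Finset.sum_neg_distrib] at a1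
          refine Eq.trans ?_ a1
          refine Finset.sum_congr rfl fun k hk => ?_
          rw [hJ0 p hp, hJ1 k hk]
          ring
        · intro k hk
          rw [hJ0 p hp, hJ0 k hk]
          ring)
      (by
        intro p hp
        rw [ev_iff, Int.cast_sum]
        have a1 := k3 p (hJP hp)
        rw [← Finset.sum_sdiff hJP, Finset.sum_eq_zero (s := J)] at a1
        · rw [add_zero] at a1
          refine Eq.trans ?_ a1
          refine Finset.sum_congr rfl fun k hk => ?_
          rw [hJ1 p hp, hJ0 k hk]
          ring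
        · intro k hk
          rw [hJ1 p hp, hJ1 k hk]
          ring)
    have hiJ : i ∉ J := by
      intro h
      have := hJ1 i h
      rw [hwi] at this
      exact absurd this (by decide)
    have hJe : J = ∅ := by
      rcases hc with h | h
      · exact h
      · exact absurd (h ▸ hi) hiJ
    funext j
    have hj : (j : ℕ) ∈ P \ J := by
      rw [hJe, Finset.sdiff_empty]
      exact Finset.mem_of_mem_erase j.2
    have := congrFun hwv j
    rw [← this]
    exact hJ0 j hj

/-- TREE -/
theorem t_TREE : Pool.Agent.Z700.S_TREE := by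
  classical
  intro l x hl P p0 hp0
  have h1 := yd_double l x P p0 hp0
  have h2 := yd_mod4 l x P ⟨p0, hp0⟩ P (subset_refl P)
  have h3 : Yd l (fun k => if k ∈ P then 2 * x k else 0) P = Yd l (fun k => 2 * x k) P :=
    yd_congr l fun j hj => by simp [hj]
  rw [h3, h1, ← mul_sub] at h2
  obtain ⟨F, hF⟩ : ∃ F, F = ∑ S ∈ P.powerset.filter fun S => p0 ∈ S, Yd l x S * Yd l x (P \ S) :=
    ⟨_, rfl⟩
  rw [← hF] at h2 ⊢
  have h4 : (2 : ℤ) ∣ F - ∑ i ∈ P, x i * Yd l (fun k => l k i) (P.erase i) := by
    obtain ⟨u, hu⟩ := h2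
    exact ⟨u, by linarith⟩
  rw [par_iff, Int.cast_sub, sub_eq_zero, Int.cast_sum] at h4
  have hz : ∀ a : ZMod 2, a ≠ 0 → a = 1 := by decide
  have hKer : (∀ J ⊆ P, (∀ p ∈ P \ J, Even (∑ q ∈ J, l p q)) →
      (∀ p ∈ J, Even (∑ q ∈ P \ J, l p q)) → J = ∅ ∨ J = P) ↔ KerL l P := Iff.rfl
  rw [hKer]
  by_cases hK : KerL l P
  · have h5 : (F : ZMod 2) = ((∑ p ∈ P, x p : ℤ) : ZMod 2) := by
      rw [h4, Int.cast_sum]
      refine Finset.sum_congr rfl fun i hi => ?_
      have := (od_iff _).1 ((ci_odd l hl P i hi).2 hK)
      rw [Int.cast_mul, hz _ this, mul_one]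
    rw [od_iff, od_iff, h5]
    exact ⟨fun h => ⟨h, hK⟩, fun h => h.1⟩
  · have h5 : (F : ZMod 2) = 0 := by
      rw [h4]
      refine Finset.sum_eq_zero fun i hi => ?_
      have : ¬ Odd (Yd l (fun k => l k i) (P.erase i)) := fun h => hK ((ci_odd l hl P i hi).1 h)
      rw [od_iff, not_not] at this
      rw [Int.cast_mul, this, mul_zero]
    rw [od_iff]
    exact ⟨fun h => absurd h5 h, fun h => absurd h.2 hK⟩

end Pool.Agent.Z179
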